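import Mathlib
import Pool.Prelude.Def_F_b1b78ff3
import Pool.Agent.H391R2.T4.Fin

/-!
# Wreath products over `ℚ`, regularly and inside prescribed embedding problems

For every finite group `G` and all large `n` the wreath product `G ≀ S_n` is the group of a
Galois extension of `ℚ(t)` in which `ℚ` is algebraically closed (`RegReal`) and is realizable over
`ℚ`; `G` is then realizable over the field of degree `n` fixed by a point stabiliser in a Galois
extension of `ℚ` with group `S_n` (`DegReal`). If moreover `L/ℚ` is any finite Galois extension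
and `Gal(L/ℚ)` acts on `G` by automorphisms, then for all large `n` the field `L` embeds in a
Galois extension of `ℚ` with group `(G ≀ S_n) ⋊ Gal(L/ℚ)`, compatibly with the projection to
`Gal(L/ℚ)` (`SolOver`).
-/

set_option autoImplicit false

open Nfff32c05 Pool.Agent.H391R2 Pool.Agent.H391R2.T4

theorem Pool.Agent.Results.MP_dadaab_nt.EmbWreath.result :
    ∀ (G : Type) [Group G] [Finite G],
      (∃ n₀ : ℕ, ∀ n ≥ n₀,
        RegReal ℚ (Wr G n) ∧ IsRealizable ℚ (Wr G n) ∧ DegReal ℚ G n) ∧
      ∀ (L : Type) [Field L] [Algebra ℚ L] [FiniteDimensional ℚ L] [IsGalois ℚ L]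
        (φ : (L ≃ₐ[ℚ] L) →* MulAut G), ∃ n₀ : ℕ, ∀ n ≥ n₀,
        SolOver ℚ L (Wr G n ⋊[wrAct φ n] (L ≃ₐ[ℚ] L)) SemidirectProduct.rightHom ℚ False := by
  intro G _ _
  exact rat_fin G
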