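import Mathlib
import Pool.Prelude.Def_F_b1b78ff3
import Pool.Agent.H391R2.X4

/-!
# All subgroups between the kernel of `G ≀ S_n → G^ab` and `G ≀ S_n` are Galois groups over `ℚ`

For every finite group `G` and all large `n` (depending only on `G`), every subgroup `H` of the
wreath product `G ≀ S_n` which contains all `(f, σ)` with `∏ [f i] = 1` in the abelianization
`G^ab` is realizable over `ℚ`; these are the groups `{(f, σ) : ∏ [f i] ∈ A}` for the subgroups `A`
of `G^ab`.
-/

set_option autoImplicit false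

open Nfff32c05 Pool.Agent.H391R2

theorem Pool.Agent.Results.MP_dadaab_nt.Intermediate.result :
    ∀ (G : Type) [Group G] [Finite G], ∃ n₀ : ℕ, ∀ n ≥ n₀, ∀ H : Subgroup (Wr G n),
      (∀ x : Wr G n, ∏ i, Abelianization.of (x.left i) = 1 → x ∈ H) → IsRealizable ℚ H := by
  intro G _ _
  obtain ⟨n₀, hn₀⟩ := intermediate_realize G
  refine ⟨n₀, fun n hn H hH => ?_⟩
  obtain ⟨L, h1, h2, h3, ⟨h4⟩⟩ := hn₀ n hn H (fun x hx => hH x (by
    rw [MonoidHom.mem_ker, wcls_apply] at hx
    exact hx))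
  exact ⟨⟨⟨L, h1, h2, h3, h4⟩⟩⟩
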