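import Mathlib
import Pool.Agent.H391R2.R1.Fin

/-!
# Tame totally real realizations of wreath products over `ℚ` with prescribed totally split primes

For every finite group `G` and all large `n` (depending only on `G`) the wreath product `G ≀ S_n`
is the Galois group of a tamely ramified totally real Galois extension of `ℚ` in which any given
finite set of primes is totally split.
-/

set_option autoImplicit false

open NumberField Pool.Agent.H391R2

namespace Pool.Agent.Results.MP_dadaab_nt.TameRealSplit

/-- The rational prime `p` is totally split in the number field `L`: there are `[L : ℚ]` distinct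
prime ideals of the ring of integers of `L` over `p`. -/
def TotallySplit (L : Type) [Field L] [NumberField L] (p : ℕ) : Prop :=
  ((Ideal.span {(p : ℤ)}).primesOver (𝓞 L)).ncard = Module.finrank ℚ L

/-- The number field `L` is tamely ramified over `ℚ`: no ramification index of a prime ideal of
the ring of integers of `L` over a rational prime `p` is divisible by `p`. -/
def Tame (L : Type) [Field L] [NumberField L] : Prop :=
  ∀ p : ℕ, p.Prime → ∀ P : Ideal (𝓞 L), P.IsPrime → (p : 𝓞 L) ∈ P → ¬ p ∣ P.ramificationIdx ℤ

/-- `H` is the Galois group of a tamely ramified totally real Galois extension of `ℚ` in which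
every prime of `S` is totally split. -/
def LocalReal (H : Type) [Group H] (S : Finset ℕ) : Prop :=
  ∃ (L : Type) (_ : Field L) (_ : NumberField L) (_ : IsGalois ℚ L),
    Nonempty (H ≃* (L ≃ₐ[ℚ] L)) ∧ IsTotallyReal L ∧ (∀ p ∈ S, TotallySplit L p) ∧ Tame L

end Pool.Agent.Results.MP_dadaab_nt.TameRealSplit

open Pool.Agent.Results.MP_dadaab_nt.TameRealSplit in
theorem Pool.Agent.Results.MP_dadaab_nt.TameRealSplit.result :
    ∀ (G : Type) [Group G] [Finite G], ∃ n₀ : ℕ, ∀ n ≥ n₀, ∀ S : Finset ℕ,
      (∀ p ∈ S, p.Prime) → LocalReal (Wr G n) S := by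
  intro G _ _
  obtain ⟨n₀, hn₀⟩ := R1.wreath_local G
  refine ⟨n₀, fun n hn S hS => ?_⟩
  obtain ⟨L, i1, i2, i3, h1, h2, h3, h4⟩ := (hn₀ n hn).2 S
  exact ⟨L, i1, i2, i3, h1, h2, fun p hp => h3 p hp (hS p hp), h4⟩
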