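import Mathlib
import Pool.Agent.H391R2.U.Main7

/-!
# Unramified extensions of fields of degree `n` and of quadratic fields

For every finite group `G` and all large `n` (depending only on `G`) the group
`W' = {(f, σ) ∈ G ≀ S_n : ∏ [f i] = 1 in G^ab}` is the Galois group over `ℚ` of a number field `L`
which is unramified (at all prime ideals) over a quadratic field `k`, with `Gal(L / k)` the
subgroup of the `(f, σ) ∈ W'` with `σ` even. Moreover `L` is the Galois closure over `ℚ` of a field
`M` which is a Galois extension with group `G`, unramified at all places, of a field `K` of degree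
`n` whose Galois closure has group `S_n`, and any given finite set of primes is totally split in
`L`.
-/

set_option autoImplicit false

open NumberField Pool.Agent.H391R2

namespace Pool.Agent.Results.MP_dadaab_nt.UnramQuad

/-- The rational prime `p` is totally split in the number field `L`: there are `[L : ℚ]` distinct
prime ideals of the ring of integers of `L` over `p`. -/
def TotallySplit (L : Type) [Field L] [NumberField L] (p : ℕ) : Prop :=
  ((Ideal.span {(p : ℤ)}).primesOver (𝓞 L)).ncard = Module.finrank ℚ L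

/-- The Galois closure (in `Ω`) of the intermediate field `K` of `Ω / ℚ` has group `S_n`. -/
def SymClosure (Ω : Type) [Field Ω] [NumberField Ω] (K : IntermediateField ℚ Ω) (n : ℕ) : Prop :=
  Nonempty ((IntermediateField.normalClosure ℚ K Ω ≃ₐ[ℚ] IntermediateField.normalClosure ℚ K Ω) ≃*
    Equiv.Perm (Fin n))

/-- `M` is a Galois extension of `K` with group `G`. -/
def GaloisWith (G : Type) [Group G] (Ω : Type) [Field Ω] [NumberField Ω]
    (K M : IntermediateField ℚ Ω) (hKM : K ≤ M) : Prop :=
  IsGalois K (IntermediateField.extendScalars hKM) ∧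
    Nonempty (G ≃* (IntermediateField.extendScalars hKM ≃ₐ[K] IntermediateField.extendScalars hKM))

/-- No nonzero prime ideal of the ring of integers of `M` is ramified over `K`. -/
def UnramifiedFin (Ω : Type) [Field Ω] [NumberField Ω] (K M : IntermediateField ℚ Ω)
    (hKM : K ≤ M) : Prop :=
  ∀ P : Ideal (𝓞 (IntermediateField.extendScalars hKM)), P.IsPrime → P ≠ ⊥ →
    P.ramificationIdx (𝓞 K) = 1

/-- No infinite place of `M` is ramified over `K`. -/
def UnramifiedInf (Ω : Type) [Field Ω] [NumberField Ω] (K M : IntermediateField ℚ Ω)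
    (hKM : K ≤ M) : Prop :=
  IsUnramifiedAtInfinitePlaces K (IntermediateField.extendScalars hKM)

/-- `L` is the Galois closure of `M` over `ℚ`; it has group `{(f, σ) ∈ G ≀ S_n : ∏ [f i] = 1}` and
all primes of `S` are totally split in it. -/
def ClosureWith (G : Type) [Group G] (n : ℕ) (S : Finset ℕ) (Ω : Type) [Field Ω] [NumberField Ω]
    (M L : IntermediateField ℚ Ω) : Prop :=
  IntermediateField.normalClosure ℚ M Ω = L ∧ IsGalois ℚ L ∧
    Nonempty ((L ≃ₐ[ℚ] L) ≃* (wcls G n).ker) ∧ ∀ p ∈ S, TotallySplit L p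

/-- The subgroup `{(f, σ) ∈ G ≀ S_n : ∏ [f i] = 1 in G^ab, σ even}`. -/
noncomputable def EvenKer (G : Type) [Group G] (n : ℕ) : Subgroup (Wr G n) :=
  (wcls G n).ker ⊓ (Equiv.Perm.sign.comp
    (SemidirectProduct.rightHom : Wr G n →* Equiv.Perm (Fin n))).ker

/-- `L` is a Galois extension of a quadratic field with group `EvenKer G n` in which no prime ideal
is ramified. -/
def QuadraticBase (G : Type) [Group G] (n : ℕ) (Ω : Type) [Field Ω] [NumberField Ω]
    (L : IntermediateField ℚ Ω) : Prop :=
  ∃ (k : IntermediateField ℚ Ω) (hkL : k ≤ L), Module.finrank ℚ k = 2 ∧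
    GaloisWith (EvenKer G n) Ω k L hkL ∧ UnramifiedFin Ω k L hkL

/-- The whole tower: `K ≤ M ≤ L` with `K` of degree `n` and with Galois closure of group `S_n`,
`M / K` Galois with group `G` and unramified at all places, `L` the Galois closure of `M` as in
`ClosureWith`, and `L` unramified over a quadratic field as in `QuadraticBase`. -/
def QuadraticTower (G : Type) [Group G] (n : ℕ) (S : Finset ℕ) : Prop :=
  ∃ (Ω : Type) (_ : Field Ω) (_ : NumberField Ω) (_ : IsGalois ℚ Ω)
    (K M L : IntermediateField ℚ Ω) (hKM : K ≤ M), Module.finrank ℚ K = n ∧ SymClosure Ω K n ∧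
      GaloisWith G Ω K M hKM ∧ UnramifiedFin Ω K M hKM ∧ UnramifiedInf Ω K M hKM ∧
      ClosureWith G n S Ω M L ∧ QuadraticBase G n Ω L

end Pool.Agent.Results.MP_dadaab_nt.UnramQuad

open Pool.Agent.Results.MP_dadaab_nt.UnramQuad in
theorem Pool.Agent.Results.MP_dadaab_nt.UnramQuad.result :
    ∀ (G : Type) [Group G] [Finite G], ∃ n₀ : ℕ, ∀ n ≥ n₀, ∀ S : Finset ℕ,
      (∀ p ∈ S, p.Prime) → QuadraticTower G n S := by
  intro G _ _
  obtain ⟨n₀, hn₀⟩ := U.quadratic_exists G
  refine ⟨n₀, fun n hn S hS => ?_⟩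
  obtain ⟨Ω, i1, i2, i3, K, M, L, k, hKM, hkL, _, h1, h2, h3, h4, h5, h6, h7, h8, h8', h9, h10,
    h11, h12, h13⟩ := hn₀ n hn S hS
  exact ⟨Ω, i1, i2, i3, K, M, L, hKM, h1, h2, ⟨h6, h7⟩, h8, h8', ⟨h3, h4, h5, h13⟩,
    k, hkL, h9, ⟨h10, h11⟩, h12⟩
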